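import Mathlib

/-!
# Levels and cells
-/

set_option autoImplicit false

open Finset

namespace Helper17.EP

/-- the level used at step `j` -/
def lev (q₀ j : ℕ) : ℕ := Nat.log 2 (2 ^ q₀ + (j - 1) / 2)

lemma lev_ge (q₀ j : ℕ) : q₀ ≤ lev q₀ j := by
  unfold lev
  exact Nat.le_log_of_pow_le (by norm_num) (by omega)

lemma lev_mono (q₀ : ℕ) {j k : ℕ} (hjk : j ≤ k) : lev q₀ j ≤ lev q₀ k := by
  unfold lev
  apply Nat.log_mono_right
  have : (j - 1) / 2 ≤ (k - 1) / 2 := Nat.div_le_div_right (by omega)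
  omega

lemma lev_pow (q₀ j : ℕ) : 2 ^ lev q₀ j ≤ 2 ^ q₀ + (j - 1) / 2 := by
  unfold lev
  apply Nat.pow_log_le_self
  have : 0 < 2 ^ q₀ := by positivity
  omega

lemma lev_lt (q₀ j : ℕ) : 2 ^ q₀ + (j - 1) / 2 < 2 ^ (lev q₀ j + 1) := by
  unfold lev
  exact Nat.lt_pow_succ_log_self (by norm_num) _

/-- the left ends of the cells -/
def cell (q₀ : ℕ) (L : ℕ → ℕ) : ℕ → ℕ
  | 0 => 0
  | i + 1 => cell q₀ L i + L (lev q₀ (cell q₀ L i + 1))

/-- the level of a cell -/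
def clev (q₀ : ℕ) (L : ℕ → ℕ) (i : ℕ) : ℕ := lev q₀ (cell q₀ L i + 1)

lemma cell_succ (q₀ : ℕ) (L : ℕ → ℕ) (i : ℕ) :
    cell q₀ L (i + 1) = cell q₀ L i + L (clev q₀ L i) := rfl

lemma cell_mono (q₀ : ℕ) (L : ℕ → ℕ) : Monotone (cell q₀ L) :=
  monotone_nat_of_le_succ fun i => by rw [cell_succ]; omega

lemma clev_ge (q₀ : ℕ) (L : ℕ → ℕ) (i : ℕ) : q₀ ≤ clev q₀ L i := lev_ge _ _

lemma clev_mono (q₀ : ℕ) (L : ℕ → ℕ) : Monotone (clev q₀ L) := fun i j hij =>
  lev_mono q₀ (Nat.add_le_add_right (cell_mono q₀ L hij) 1)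

lemma le_cell (q₀ : ℕ) (L : ℕ → ℕ) (hL : ∀ q, q₀ ≤ q → 1 ≤ L q) (i : ℕ) : i ≤ cell q₀ L i := by
  induction i with
  | zero => exact Nat.zero_le _
  | succ i ih =>
    rw [cell_succ]
    have := hL _ (clev_ge q₀ L i)
    omega

/-- summation over the cells, by levels -/
lemma sum_cells (q₀ : ℕ) (L : ℕ → ℕ) (g : ℕ → ℝ) (hg : ∀ q, 0 ≤ g q) (i : ℕ) :
    ∑ k ∈ range (i + 1), (L (clev q₀ L k) : ℝ) * g (clev q₀ L k) ≤
      ∑ q ∈ Ico q₀ (clev q₀ L i + 1), (2 ^ (q + 1) + L q : ℝ) * g q := by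
  have key : ∀ i, ∑ k ∈ range (i + 1), (L (clev q₀ L k) : ℝ) * g (clev q₀ L k) ≤
      ∑ q ∈ Ico q₀ (clev q₀ L i), (2 ^ (q + 1) + L q : ℝ) * g q +
        (cell q₀ L (i + 1) - 2 * (2 ^ clev q₀ L i - 2 ^ q₀) : ℝ) * g (clev q₀ L i) := by
    intro i
    induction i with
    | zero =>
      have e1 : clev q₀ L 0 = q₀ := by
        have h1 : clev q₀ L 0 = Nat.log 2 (2 ^ q₀ + (0 + 1 - 1) / 2) := rfl
        rw [h1]
        simp
      rw [zero_add, sum_range_one, e1, Ico_self, sum_empty, zero_add, cell_succ, e1]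
      have e2 : cell q₀ L 0 = 0 := rfl
      rw [e2]
      push_cast
      apply le_of_eq
      ring
    | succ i ih =>
      rw [sum_range_succ]
      have h1 : clev q₀ L i ≤ clev q₀ L (i + 1) := clev_mono q₀ L (Nat.le_succ i)
      have hcs : (cell q₀ L (i + 1 + 1) : ℝ) = cell q₀ L (i + 1) + L (clev q₀ L (i + 1)) := by
        rw [cell_succ]
        push_cast
        ring
      rcases h1.eq_or_lt with h2 | h2
      · rw [← h2] at hcs ⊢
        rw [hcs]
        have := ih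
        nlinarith
      · -- the level increases
        have h3 : (cell q₀ L (i + 1) : ℝ) - 2 * (2 ^ clev q₀ L i - 2 ^ q₀) ≤
            2 ^ (clev q₀ L i + 1) + L (clev q₀ L i) := by
          have h4 := lev_lt q₀ (cell q₀ L i + 1)
          rw [Nat.add_sub_cancel] at h4
          have h5 : 2 * 2 ^ q₀ + cell q₀ L i ≤ 2 * 2 ^ (clev q₀ L i + 1) := by
            unfold clev
            omega
          have h6 : (2 : ℝ) * 2 ^ q₀ + cell q₀ L i ≤ 2 * 2 ^ (clev q₀ L i + 1) := by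
            exact_mod_cast h5
          have h7 : (cell q₀ L (i + 1) : ℝ) = cell q₀ L i + L (clev q₀ L i) := by
            rw [cell_succ]
            push_cast
            ring
          have h8 : (2 : ℝ) ^ (clev q₀ L i + 1) = 2 * 2 ^ clev q₀ L i := by ring
          rw [h7, h8]
          rw [h8] at h6
          linarith
        have h9 : (0 : ℝ) ≤ cell q₀ L (i + 1) - 2 * (2 ^ clev q₀ L (i + 1) - 2 ^ q₀) := by
          have h4 := lev_pow q₀ (cell q₀ L (i + 1) + 1)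
          rw [Nat.add_sub_cancel] at h4
          have h5 : 2 * 2 ^ clev q₀ L (i + 1) ≤ 2 * 2 ^ q₀ + cell q₀ L (i + 1) := by
            unfold clev
            omega
          have h6 : (2 : ℝ) * 2 ^ clev q₀ L (i + 1) ≤ 2 * 2 ^ q₀ + cell q₀ L (i + 1) := by
            exact_mod_cast h5
          linarith
        have h10 : ∑ q ∈ Ico q₀ (clev q₀ L i), (2 ^ (q + 1) + L q : ℝ) * g q +
            (2 ^ (clev q₀ L i + 1) + L (clev q₀ L i) : ℝ) * g (clev q₀ L i) ≤
            ∑ q ∈ Ico q₀ (clev q₀ L (i + 1)), (2 ^ (q + 1) + L q : ℝ) * g q := by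
          rw [← Finset.sum_Ico_succ_top (clev_ge q₀ L i)]
          refine Finset.sum_le_sum_of_subset_of_nonneg ?_ fun q _ _ => ?_
          · exact Finset.Ico_subset_Ico le_rfl h2
          · have := hg q
            positivity
        have h11 := mul_le_mul_of_nonneg_right h3 (hg (clev q₀ L i))
        have h12 := mul_nonneg h9 (hg (clev q₀ L (i + 1)))
        rw [hcs]
        nlinarith
  refine (key i).trans ?_
  rw [Finset.sum_Ico_succ_top (clev_ge q₀ L i)]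
  have h3 : (cell q₀ L (i + 1) : ℝ) - 2 * (2 ^ clev q₀ L i - 2 ^ q₀) ≤
      2 ^ (clev q₀ L i + 1) + L (clev q₀ L i) := by
    have h4 := lev_lt q₀ (cell q₀ L i + 1)
    rw [Nat.add_sub_cancel] at h4
    have h5 : 2 * 2 ^ q₀ + cell q₀ L i ≤ 2 * 2 ^ (clev q₀ L i + 1) := by
      unfold clev
      omega
    have h6 : (2 : ℝ) * 2 ^ q₀ + cell q₀ L i ≤ 2 * 2 ^ (clev q₀ L i + 1) := by
      exact_mod_cast h5
    have h7 : (cell q₀ L (i + 1) : ℝ) = cell q₀ L i + L (clev q₀ L i) := by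
      rw [cell_succ]
      push_cast
      ring
    have h8 : (2 : ℝ) ^ (clev q₀ L i + 1) = 2 * 2 ^ clev q₀ L i := by ring
    rw [h7, h8]
    rw [h8] at h6
    linarith
  have := mul_le_mul_of_nonneg_right h3 (hg (clev q₀ L i))
  linarith

lemma prod_le_two (m : ℕ) : ∏ i ∈ range m, ((1 : ℝ) + 1 / ((i : ℝ) + 2) ^ 2) ≤ 2 := by
  have h : ∏ i ∈ range m, ((1 : ℝ) + 1 / ((i : ℝ) + 2) ^ 2) ≤ 2 * ((m : ℝ) + 1) / (m + 2) := by
    induction m with
    | zero => norm_num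
    | succ m ih =>
      rw [prod_range_succ]
      have h0 : (0 : ℝ) ≤ m := Nat.cast_nonneg m
      refine (mul_le_mul_of_nonneg_right ih (by positivity)).trans ?_
      have e : (2 * ((m : ℝ) + 1) / (m + 2)) * (1 + 1 / ((m : ℝ) + 2) ^ 2) =
          2 * (m + 1) * ((m + 2) ^ 2 + 1) / (m + 2) ^ 3 := by
        field_simp
      rw [e]
      push_cast
      rw [div_le_div_iff₀ (by positivity) (by positivity)]
      nlinarith [mul_nonneg h0 h0, mul_nonneg (mul_nonneg h0 h0) h0]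
  refine h.trans ?_
  have h0 : (0 : ℝ) ≤ m := Nat.cast_nonneg m
  rw [div_le_iff₀ (by positivity)]
  linarith

end Helper17.EP
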