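import Mathlib

/-!
# Kraft's inequality for labelled words, cut into cells, and Gibbs' inequality

A word is a number `a < 2 ^ t m`; its initial segments are the residues `a % 2 ^ t i`.
-/

set_option autoImplicit false

open Finset

namespace Helper17.EP

/-- the residues modulo `2 ^ b` with given residue modulo `2 ^ a` -/
lemma card_residues {a b : ℕ} (hab : a ≤ b) (ρ : ℕ) (R : Finset ℕ)
    (hR : ∀ r ∈ R, r < 2 ^ b ∧ r % 2 ^ a = ρ) : R.card ≤ 2 ^ (b - a) := by
  have h1 : R.card ≤ (range (2 ^ (b - a))).card := by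
    refine Finset.card_le_card_of_injOn (fun r => r / 2 ^ a) ?_ ?_
    · intro r hr
      have h2 := (hR r hr).1
      rw [Finset.coe_range, Set.mem_Iio]
      show r / 2 ^ a < 2 ^ (b - a)
      rw [Nat.div_lt_iff_lt_mul (by positivity), ← pow_add]
      have : b - a + a = b := by omega
      rwa [this]
    · intro r hr s hs hrs
      have h2 := (hR r hr).2
      have h3 := (hR s hs).2
      have h4 : r / 2 ^ a = s / 2 ^ a := hrs
      have h5 := Nat.div_add_mod r (2 ^ a)
      have h6 := Nat.div_add_mod s (2 ^ a)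
      rw [h2, h4] at h5
      rw [h3] at h6
      omega
  rwa [card_range] at h1

/-- **Kraft's inequality for labelled words.**  If two words which first differ in the cell `i`
never both lack the label `i`, then the sum of the weights is bounded. -/
theorem kraft (t : ℕ → ℕ) (ht : Monotone t) (m : ℕ) (T : Finset ℕ) (hT : ∀ a ∈ T, a < 2 ^ t m)
    (A : ℕ → ℕ → Prop) [∀ a i, Decidable (A a i)] (η : ℕ → ℝ) (h0 : ∀ i, 0 ≤ η i)
    (hA : ∀ a ∈ T, ∀ b ∈ T, ∀ i, i < m → a % 2 ^ t i = b % 2 ^ t i →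
      a % 2 ^ t (i + 1) ≠ b % 2 ^ t (i + 1) → A a i ∨ A b i) :
    ∀ k, k ≤ m → ∀ ρ : ℕ, ∑ a ∈ T.filter (fun a => a % 2 ^ t (m - k) = ρ),
      ∏ i ∈ Ico (m - k) m, (if A a i then η i else 1) ≤
        ∏ i ∈ Ico (m - k) m, (1 + 2 ^ (t (i + 1) - t i) * η i) := by
  intro k
  induction k with
  | zero =>
    intro _ ρ
    simp only [Nat.sub_zero, Ico_self, prod_empty, sum_const, nsmul_eq_mul, mul_one]
    have : (T.filter (fun a => a % 2 ^ t m = ρ)).card ≤ 1 := by
      rw [card_le_one]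
      intro a ha b hb
      rw [mem_filter] at ha hb
      have h2 := ha.2
      have h3 := hb.2
      rw [Nat.mod_eq_of_lt (hT a ha.1)] at h2
      rw [Nat.mod_eq_of_lt (hT b hb.1)] at h3
      omega
    exact_mod_cast this
  | succ k ih =>
    intro hk ρ
    obtain ⟨i₀, hi₀⟩ : ∃ i₀, i₀ = m - (k + 1) := ⟨_, rfl⟩
    have hi₁ : m - k = i₀ + 1 := by omega
    have him : i₀ < m := by omega
    rw [hi₁] at ih
    rw [← hi₀]
    have hP : ∀ f : ℕ → ℝ, ∏ i ∈ Ico i₀ m, f i = f i₀ * ∏ i ∈ Ico (i₀ + 1) m, f i :=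
      fun f => Finset.prod_eq_prod_Ico_succ_bot him f
    obtain ⟨P, hPd⟩ : ∃ P, P = ∏ i ∈ Ico (i₀ + 1) m, (1 + 2 ^ (t (i + 1) - t i) * η i) :=
      ⟨_, rfl⟩
    have hP0 : 0 ≤ P := by
      rw [hPd]
      refine Finset.prod_nonneg fun i _ => ?_
      have := h0 i
      positivity
    obtain ⟨D, hD⟩ : ∃ D, D = T.filter (fun a => a % 2 ^ t i₀ = ρ) := ⟨_, rfl⟩
    obtain ⟨R, hR⟩ : ∃ R, R = D.image (fun a => a % 2 ^ t (i₀ + 1)) := ⟨_, rfl⟩
    have hdvd : 2 ^ t i₀ ∣ 2 ^ t (i₀ + 1) := pow_dvd_pow 2 (ht (by omega))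
    have hRc : (R.card : ℝ) ≤ 2 ^ (t (i₀ + 1) - t i₀) := by
      have : R.card ≤ 2 ^ (t (i₀ + 1) - t i₀) := by
        apply card_residues (ht (by omega)) ρ
        intro r hr
        rw [hR, mem_image] at hr
        obtain ⟨a, ha, rfl⟩ := hr
        rw [hD, mem_filter] at ha
        refine ⟨Nat.mod_lt _ (by positivity), ?_⟩
        rw [Nat.mod_mod_of_dvd _ hdvd]
        exact ha.2
      exact_mod_cast this
    have hfib : ∑ a ∈ D, ∏ i ∈ Ico i₀ m, (if A a i then η i else 1) =
        ∑ r ∈ R, ∑ a ∈ D.filter (fun a => a % 2 ^ t (i₀ + 1) = r),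
          ∏ i ∈ Ico i₀ m, (if A a i then η i else 1) := by
      rw [hR]
      exact (Finset.sum_fiberwise_of_maps_to (fun a ha => Finset.mem_image_of_mem _ ha) _).symm
    have hDr : ∀ r ∈ R, D.filter (fun a => a % 2 ^ t (i₀ + 1) = r) =
        T.filter (fun a => a % 2 ^ t (i₀ + 1) = r) := by
      intro r hr
      rw [hR, mem_image] at hr
      obtain ⟨b, hb, hbr⟩ := hr
      rw [hD, mem_filter] at hb
      ext a
      rw [hD, mem_filter, mem_filter, mem_filter]
      constructor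
      · rintro ⟨⟨h3, -⟩, h4⟩
        exact ⟨h3, h4⟩
      · rintro ⟨h3, h4⟩
        refine ⟨⟨h3, ?_⟩, h4⟩
        rw [← Nat.mod_mod_of_dvd a hdvd, h4, ← hbr, Nat.mod_mod_of_dvd _ hdvd]
        exact hb.2
    -- the residues with an unlabelled word
    let bad : ℕ → Prop := fun r => ∃ a ∈ D, a % 2 ^ t (i₀ + 1) = r ∧ ¬ A a i₀
    classical
    have hbad : ((R.filter bad).card : ℝ) ≤ 1 := by
      have : (R.filter bad).card ≤ 1 := by
        rw [card_le_one]
        intro r hr s hs
        rw [mem_filter] at hr hs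
        obtain ⟨-, a, ha, har, haA⟩ := hr
        obtain ⟨-, b, hb, hbs, hbA⟩ := hs
        by_contra hne
        rw [hD, mem_filter] at ha hb
        rcases hA a ha.1 b hb.1 i₀ him (by rw [ha.2, hb.2]) (by rw [har, hbs]; exact hne) with h | h
        · exact haA h
        · exact hbA h
      exact_mod_cast this
    have hS : ∀ r ∈ R, ∑ a ∈ D.filter (fun a => a % 2 ^ t (i₀ + 1) = r),
          ∏ i ∈ Ico i₀ m, (if A a i then η i else 1) ≤
        (η i₀ + (if bad r then 1 else 0)) * P := by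
      intro r hr
      have h2 := ih (by omega) r
      rw [← hPd] at h2
      have hnn : ∀ a, 0 ≤ ∏ i ∈ Ico (i₀ + 1) m, (if A a i then η i else 1) := by
        intro a
        refine Finset.prod_nonneg fun i _ => ?_
        split_ifs
        · exact h0 i
        · norm_num
      have h3 : ∀ a ∈ D.filter (fun a => a % 2 ^ t (i₀ + 1) = r),
          ∏ i ∈ Ico i₀ m, (if A a i then η i else 1) ≤
          (η i₀ + (if bad r then 1 else 0)) *
            ∏ i ∈ Ico (i₀ + 1) m, (if A a i then η i else 1) := by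
        intro a ha
        rw [mem_filter] at ha
        rw [hP]
        refine mul_le_mul_of_nonneg_right ?_ (hnn a)
        by_cases hAa : A a i₀
        · rw [if_pos hAa]
          split_ifs <;> linarith [h0 i₀]
        · rw [if_neg hAa, if_pos (show bad r from ⟨a, ha.1, ha.2, hAa⟩)]
          linarith [h0 i₀]
      refine (Finset.sum_le_sum h3).trans ?_
      rw [← Finset.mul_sum, hDr r hr]
      refine mul_le_mul_of_nonneg_left h2 ?_
      split_ifs <;> linarith [h0 i₀]
    rw [← hD, hfib]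
    refine (Finset.sum_le_sum hS).trans ?_
    rw [← Finset.sum_mul, Finset.sum_add_distrib, Finset.sum_const, nsmul_eq_mul,
      Finset.sum_ite, Finset.sum_const_zero, add_zero, Finset.sum_const, nsmul_eq_mul, mul_one, hP,
      ← hPd]
    refine mul_le_mul_of_nonneg_right ?_ hP0
    have := mul_le_mul_of_nonneg_right hRc (h0 i₀)
    linarith

/-- **Gibbs' inequality.** -/
theorem gibbs {ι : Type*} (T : Finset ι) (p Q : ι → ℝ) (hp : ∀ a ∈ T, 0 < p a)
    (hsum : ∑ a ∈ T, p a = 1) (hQ : ∀ a ∈ T, 0 < Q a) (Z : ℝ) (hZ : ∑ a ∈ T, Q a ≤ Z) (hZ0 : 0 < Z) :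
    ∑ a ∈ T, Real.negMulLog (p a) ≤ ∑ a ∈ T, p a * (-Real.log (Q a)) + Real.log Z := by
  have h1 : ∀ a ∈ T, Real.negMulLog (p a) ≤
      p a * (-Real.log (Q a)) + p a * Real.log Z + (Q a / Z - p a) := by
    intro a ha
    have h2 := hp a ha
    have h3 := hQ a ha
    have h4 := Real.log_le_sub_one_of_pos (show 0 < Q a / (p a * Z) by positivity)
    rw [Real.log_div h3.ne' (by positivity), Real.log_mul h2.ne' hZ0.ne'] at h4
    have h5 := mul_le_mul_of_nonneg_left h4 h2.le
    have h6 : p a * (Q a / (p a * Z) - 1) = Q a / Z - p a := by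
      field_simp
    rw [h6] at h5
    unfold Real.negMulLog
    nlinarith
  refine (Finset.sum_le_sum h1).trans ?_
  rw [Finset.sum_add_distrib, Finset.sum_add_distrib, Finset.sum_sub_distrib, ← Finset.sum_mul,
    ← Finset.sum_div, hsum]
  have h2 : (∑ a ∈ T, Q a) / Z ≤ 1 := by
    rw [div_le_one hZ0]
    exact hZ
  linarith

end Helper17.EP
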