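import Mathlib
import Pool.Agent.Helper17.EP.Kraft

/-!
# Entropy is at most the mean cost, for costs satisfying Kraft's inequality
-/

set_option autoImplicit false

open MeasureTheory Finset

namespace Helper17.EP

/-- The entropy of `w` is at most the mean of any cost function which satisfies Kraft's inequality
on each of the `C` classes `c = c₀`, up to `log (2 C)`. -/
theorem entropy_le {μ : Measure ℝ} [IsProbabilityMeasure μ] (N C : ℕ) (w c : ℝ → ℕ)
    (hw : Measurable w) (hc : Measurable c) (hwN : ∀ x, w x < N) (hcC : ∀ x, c x < C)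
    (cost : ℝ → ℝ) (hcost : Integrable cost μ)
    (hkraft : ∀ (c₀ : ℕ) (T : Finset ℕ) (r : ℕ → ℝ), (∀ a ∈ T, w (r a) = a ∧ c (r a) = c₀) →
      ∑ a ∈ T, Real.exp (-cost (r a)) ≤ 2) :
    ∑ a ∈ range N, Real.negMulLog (μ.real {x | w x = a}) ≤
      ∫ x, cost x ∂μ + Real.log (2 * C) := by
  classical
  obtain ⟨E, hE⟩ : ∃ E : ℕ × ℕ → Set ℝ, E = fun p => {x | w x = p.1 ∧ c x = p.2} := ⟨_, rfl⟩
  have hEm : ∀ p, MeasurableSet (E p) := by
    intro p
    rw [hE]
    exact (hw (measurableSet_singleton p.1)).inter (hc (measurableSet_singleton p.2))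
  have hEd : ∀ p p', p ≠ p' → Disjoint (E p) (E p') := by
    intro p p' hne
    rw [Set.disjoint_left]
    intro x hx hx'
    rw [hE] at hx hx'
    exact hne (Prod.ext (hx.1.symm.trans hx'.1) (hx.2.symm.trans hx'.2))
  obtain ⟨P, hP⟩ : ∃ P : ℕ × ℕ → ℝ, P = fun p => μ.real (E p) := ⟨_, rfl⟩
  have hP0 : ∀ p, 0 ≤ P p := fun p => by rw [hP]; exact measureReal_nonneg
  have hC : 0 < C := (Nat.zero_le _).trans_lt (hcC 0)
  -- the masses of the words
  have hw1 : ∀ a, μ.real {x | w x = a} = ∑ k ∈ range C, P (a, k) := by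
    intro a
    have h1 : {x | w x = a} = ⋃ k ∈ range C, E (a, k) := by
      ext x
      rw [Set.mem_iUnion₂, hE]
      constructor
      · intro h
        exact ⟨c x, mem_range.2 (hcC x), h, rfl⟩
      · rintro ⟨k, -, h, -⟩
        exact h
    rw [h1, measureReal_biUnion_finset, hP]
    · intro i _ j _ hij
      exact hEd _ _ (fun h => hij (Prod.ext_iff.1 h).2)
    · intro k _
      exact hEm _
  have hsub : ∀ a, Real.negMulLog (μ.real {x | w x = a}) ≤
      ∑ k ∈ range C, Real.negMulLog (P (a, k)) := by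
    intro a
    rw [hw1]
    have h1 : Real.negMulLog (∑ k ∈ range C, P (a, k)) =
        ∑ k ∈ range C, P (a, k) * (-Real.log (∑ k ∈ range C, P (a, k))) := by
      rw [← Finset.sum_mul]
      unfold Real.negMulLog
      ring
    rw [h1]
    refine Finset.sum_le_sum fun k hk => ?_
    rcases (hP0 (a, k)).eq_or_lt with h2 | h2
    · rw [← h2]
      simp
    · have h3 : P (a, k) ≤ ∑ k ∈ range C, P (a, k) :=
        Finset.single_le_sum (f := fun k => P (a, k)) (fun i _ => hP0 _) hk
      have h4 := Real.log_le_log h2 h3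
      unfold Real.negMulLog
      nlinarith
  -- the pairs of positive mass
  obtain ⟨T, hT⟩ : ∃ T, T = (range N ×ˢ range C).filter (fun p => 0 < P p) := ⟨_, rfl⟩
  have hTP : ∀ p ∈ T, 0 < P p := by
    intro p hp
    rw [hT, mem_filter] at hp
    exact hp.2
  have hrest : ∀ (f : ℕ × ℕ → ℝ), (∀ p, P p = 0 → f p = 0) →
      ∑ p ∈ range N ×ˢ range C, f p = ∑ p ∈ T, f p := by
    intro f hf
    rw [hT, Finset.sum_filter]
    refine Finset.sum_congr rfl fun p _ => ?_
    split_ifs with h
    · rfl
    · exact hf p (le_antisymm (not_lt.1 h) (hP0 p))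
  have hcov : ⋃ p ∈ range N ×ˢ range C, E p = Set.univ := by
    rw [Set.eq_univ_iff_forall]
    intro x
    rw [Set.mem_iUnion₂]
    refine ⟨(w x, c x), ?_, ?_⟩
    · rw [mem_product]
      exact ⟨mem_range.2 (hwN x), mem_range.2 (hcC x)⟩
    · rw [hE]
      exact ⟨rfl, rfl⟩
  have hsum1 : ∑ p ∈ T, P p = 1 := by
    rw [← hrest P (fun p hp => hp), hP, ← measureReal_biUnion_finset, hcov, probReal_univ]
    · intro i _ j _ hij
      exact hEd _ _ hij
    · intro k _
      exact hEm _
  have hint : ∑ p ∈ T, ∫ x in E p, cost x ∂μ = ∫ x, cost x ∂μ := by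
    rw [← hrest (fun p => ∫ x in E p, cost x ∂μ), ← integral_biUnion_finset, hcov,
      Measure.restrict_univ]
    · intro p _
      exact hEm p
    · intro i _ j _ hij
      exact hEd _ _ hij
    · intro p _
      exact hcost.integrableOn
    · intro p hp
      apply setIntegral_measure_zero
      rw [hP] at hp
      exact (measureReal_eq_zero_iff (measure_ne_top μ _)).1 hp
  -- representatives
  have hrep : ∀ p ∈ T, ∃ x ∈ E p, P p * cost x ≤ ∫ y in E p, cost y ∂μ := by
    intro p hp
    have h1 := hTP p hp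
    rw [hP] at h1
    have h2 : μ (E p) ≠ 0 := fun h0 => by
      simp only [Measure.real, h0, ENNReal.toReal_zero, lt_irrefl] at h1
    obtain ⟨x, hx, hx2⟩ := exists_le_setAverage h2 (measure_ne_top μ _)
      (hcost.integrableOn (s := E p))
    refine ⟨x, hx, ?_⟩
    rw [setAverage_eq, smul_eq_mul] at hx2
    have h3 : P p = μ.real (E p) := by rw [hP]
    rw [h3]
    have h4 := mul_le_mul_of_nonneg_left hx2 h1.le
    rwa [← mul_assoc, mul_inv_cancel₀ h1.ne', one_mul] at h4
  choose! r hr hr2 using hrep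
  have hQ : ∑ p ∈ T, Real.exp (-cost (r p)) ≤ 2 * C := by
    have h1 : ∀ p ∈ T, p.2 ∈ range C := by
      intro p hp
      rw [hT, mem_filter, mem_product] at hp
      exact hp.1.2
    rw [← Finset.sum_fiberwise_of_maps_to h1]
    have h2 : ∀ k ∈ range C, ∑ p ∈ T.filter (fun p => p.2 = k), Real.exp (-cost (r p)) ≤ 2 := by
      intro k _
      have h3 := hkraft k ((T.filter (fun p => p.2 = k)).image Prod.fst) (fun a => r (a, k)) ?_
      · refine le_trans (le_of_eq ?_) h3
        rw [Finset.sum_image]
        · refine Finset.sum_congr rfl fun p hp => ?_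
          rw [mem_filter] at hp
          have : (p.1, k) = p := by rw [← hp.2]
          rw [this]
        · intro p hp p' hp' hpp
          rw [Finset.mem_coe, mem_filter] at hp hp'
          exact Prod.ext hpp (hp.2.trans hp'.2.symm)
      · intro a ha
        rw [mem_image] at ha
        obtain ⟨p, hp, rfl⟩ := ha
        rw [mem_filter] at hp
        have h4 := hr p hp.1
        have : (p.1, k) = p := by rw [← hp.2]
        rw [this]
        rw [hE] at h4
        exact ⟨h4.1, h4.2.trans hp.2⟩
    refine (Finset.sum_le_sum h2).trans ?_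
    rw [Finset.sum_const, card_range, nsmul_eq_mul, mul_comm]
  have hG := gibbs T P (fun p => Real.exp (-cost (r p))) hTP hsum1 (fun p _ => Real.exp_pos _)
    (2 * C) hQ (by positivity)
  calc ∑ a ∈ range N, Real.negMulLog (μ.real {x | w x = a})
      ≤ ∑ a ∈ range N, ∑ k ∈ range C, Real.negMulLog (P (a, k)) :=
        Finset.sum_le_sum fun a _ => hsub a
    _ = ∑ p ∈ T, Real.negMulLog (P p) := by
        rw [← Finset.sum_product' (range N) (range C) (fun a k => Real.negMulLog (P (a, k)))]
        exact hrest (fun p => Real.negMulLog (P p)) fun p hp => by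
          show Real.negMulLog (P p) = 0
          rw [hp, Real.negMulLog_zero]
    _ ≤ ∑ p ∈ T, P p * (-Real.log (Real.exp (-cost (r p)))) + Real.log (2 * C) := hG
    _ = ∑ p ∈ T, P p * cost (r p) + Real.log (2 * C) := by
        congr 1
        refine Finset.sum_congr rfl fun p _ => ?_
        rw [Real.log_exp, neg_neg]
    _ ≤ ∑ p ∈ T, ∫ x in E p, cost x ∂μ + Real.log (2 * C) := by
        have := Finset.sum_le_sum hr2
        linarith
    _ = ∫ x, cost x ∂μ + Real.log (2 * C) := by rw [hint]

end Helper17.EP
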