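import Mathlib
import Pool.Agent.Helper61.FR.St.P1

/-!
# Words: the first digits of `2 ^ (n - K) x`
-/

set_option autoImplicit false

open MeasureTheory Finset

namespace Helper17.EP

open Pool.Agent.Helper61.FR

/-- the number formed by the first `K` digits of `2 ^ (n - K) x` -/
noncomputable def word (n K : ℕ) (x : ℝ) : ℕ := ⌊(2 : ℝ) ^ K * Int.fract ((2 : ℝ) ^ (n - K) * x)⌋₊

lemma word_lt (n K : ℕ) (x : ℝ) : word n K x < 2 ^ K := by
  unfold word
  rw [Nat.floor_lt (mul_nonneg (by positivity) (Int.fract_nonneg _))]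
  push_cast
  have := Int.fract_lt_one ((2 : ℝ) ^ (n - K) * x)
  have h3 : (0 : ℝ) < 2 ^ K := by positivity
  nlinarith

lemma measurable_word (n K : ℕ) : Measurable (word n K) := by
  unfold word
  exact Nat.measurable_floor.comp (measurable_const.mul
    (measurable_fract.comp (measurable_const.mul measurable_id)))

/-- `2 ^ (n - K) x = (word + fract (2 ^ n x)) / 2 ^ K` modulo `1` -/
lemma word_spec {n K : ℕ} (hK : K ≤ n) (x : ℝ) :
    ∃ z : ℤ, (2 : ℝ) ^ (n - K) * x = (word n K x + Int.fract ((2 : ℝ) ^ n * x)) / 2 ^ K + z := by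
  obtain ⟨y, hy⟩ : ∃ y, y = (2 : ℝ) ^ (n - K) * x := ⟨_, rfl⟩
  refine ⟨⌊y⌋, ?_⟩
  have h1 : (2 : ℝ) ^ n * x = 2 ^ K * y := by
    rw [hy, ← mul_assoc, ← pow_add]
    congr 2
    omega
  have h2 := Int.floor_add_fract y
  have h3 : (0 : ℝ) ≤ 2 ^ K * Int.fract y := mul_nonneg (by positivity) (Int.fract_nonneg _)
  have h4 : Int.fract ((2 : ℝ) ^ n * x) = Int.fract (2 ^ K * Int.fract y) := by
    rw [h1, Int.fract_eq_fract]
    refine ⟨2 ^ K * ⌊y⌋, ?_⟩
    push_cast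
    linear_combination (-(2 : ℝ) ^ K) * h2
  have h5 : (word n K x : ℝ) + Int.fract (2 ^ K * Int.fract y) = 2 ^ K * Int.fract y := by
    have h6 : (word n K x : ℝ) = ((⌊(2 : ℝ) ^ K * Int.fract y⌋ : ℤ) : ℝ) := by
      unfold word
      rw [← hy]
      have := Int.natCast_floor_eq_floor h3
      exact_mod_cast this
    rw [h6]
    exact Int.floor_add_fract _
  rw [h4, h5, ← hy]
  have h7 : (0 : ℝ) < 2 ^ K := by positivity
  field_simp
  linarith

/-- two numbers which agree modulo `2 ^ s` and not modulo `2 ^ e` -/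
lemma exists_first {a b s e : ℕ} (h1 : a % 2 ^ s = b % 2 ^ s) (h2 : a % 2 ^ e ≠ b % 2 ^ e)
    (hse : s ≤ e) : ∃ j, s ≤ j ∧ j < e ∧ a % 2 ^ j = b % 2 ^ j ∧
      a % 2 ^ (j + 1) ≠ b % 2 ^ (j + 1) := by
  by_contra hcon
  push Not at hcon
  apply h2
  have key : ∀ k, s + k ≤ e → a % 2 ^ (s + k) = b % 2 ^ (s + k) := by
    intro k
    induction k with
    | zero => intro _; exact h1
    | succ k ih =>
      intro hk
      exact hcon (s + k) (by omega) (by omega) (ih (by omega))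
  have := key (e - s) (by omega)
  rwa [show s + (e - s) = e by omega] at this

lemma lt_of_first {a b K j : ℕ} (ha : a < 2 ^ K) (hb : b < 2 ^ K) (h1 : a % 2 ^ j = b % 2 ^ j)
    (h2 : a % 2 ^ (j + 1) ≠ b % 2 ^ (j + 1)) : j < K := by
  by_contra hcon
  push Not at hcon
  have h3 : (2 : ℕ) ^ K ≤ 2 ^ j := Nat.pow_le_pow_right (by norm_num) hcon
  rw [Nat.mod_eq_of_lt (lt_of_lt_of_le ha h3), Nat.mod_eq_of_lt (lt_of_lt_of_le hb h3)] at h1
  exact h2 (by rw [h1])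

lemma odd_of_first {a b j : ℕ} (h1 : a % 2 ^ j = b % 2 ^ j)
    (h2 : a % 2 ^ (j + 1) ≠ b % 2 ^ (j + 1)) : ∃ d : ℤ, Odd d ∧ (a : ℤ) - b = 2 ^ j * d := by
  have h3 : (2 ^ j : ℤ) ∣ (a : ℤ) - b := by
    have h4 : a ≡ b [MOD 2 ^ j] := h1
    have h5 := (Nat.modEq_iff_dvd.1 h4.symm)
    exact_mod_cast h5
  obtain ⟨d, hd⟩ := h3
  refine ⟨d, ?_, hd⟩
  rw [← Int.not_even_iff_odd]
  rintro ⟨k, hk⟩
  apply h2
  have h4 : b ≡ a [MOD 2 ^ (j + 1)] := by
    rw [Nat.modEq_iff_dvd]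
    refine ⟨k, ?_⟩
    rw [hd, hk]
    push_cast
    ring
  exact h4.symm

/-- the difference of two points whose words first differ at the digit `j` -/
lemma pair {n K j i : ℕ} (hKn : K ≤ n) (x x' : ℝ)
    (h1 : word n K x % 2 ^ j = word n K x' % 2 ^ j)
    (h2 : word n K x % 2 ^ (j + 1) ≠ word n K x' % 2 ^ (j + 1)) (hji : j < i) (hin : i ≤ n) :
    ∃ d : ℤ, Odd d ∧ (2 : ℝ) ^ (n - i) * x = (2 : ℝ) ^ (n - i) * x' + d / 2 ^ (i - j) +
      (Int.fract ((2 : ℝ) ^ n * x) - Int.fract ((2 : ℝ) ^ n * x')) / 2 ^ i := by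
  have hjK := lt_of_first (word_lt n K x) (word_lt n K x') h1 h2
  obtain ⟨d, hd, hab⟩ := odd_of_first h1 h2
  obtain ⟨z, hz⟩ := word_spec hKn x
  obtain ⟨z', hz'⟩ := word_spec hKn x'
  have hab' : (word n K x : ℝ) - word n K x' = 2 ^ j * d := by exact_mod_cast hab
  refine ⟨d + 2 ^ (K - j) * (z - z'), ?_, ?_⟩
  · apply Odd.add_even hd
    apply Even.mul_right
    exact (Int.even_pow.2 ⟨even_two, by omega⟩)
  · obtain ⟨θ, hθ⟩ : ∃ θ, θ = Int.fract ((2 : ℝ) ^ n * x) - Int.fract ((2 : ℝ) ^ n * x') :=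
      ⟨_, rfl⟩
    rw [← hθ]
    have h3 : (2 : ℝ) ^ (n - K) * (x - x') = (2 ^ j * d + θ) / 2 ^ K + (z - z') := by
      rw [mul_sub, hz, hz', hθ, ← hab']
      ring
    have e1 : (2 : ℝ) ^ n * (x - x') = 2 ^ j * d + θ + 2 ^ K * (z - z') := by
      have e2 : (2 : ℝ) ^ n = 2 ^ K * 2 ^ (n - K) := by
        rw [← pow_add]; congr 1; omega
      rw [e2, mul_assoc, h3]
      have h7 : (0 : ℝ) < 2 ^ K := by positivity
      field_simp
    have e3 : (2 : ℝ) ^ n = 2 ^ (n - i) * 2 ^ i := by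
      rw [← pow_add]; congr 1; omega
    have e4 : (2 : ℝ) ^ i = 2 ^ (i - j) * 2 ^ j := by
      rw [← pow_add]; congr 1; omega
    have e5 : (2 : ℝ) ^ K = 2 ^ (K - j) * 2 ^ j := by
      rw [← pow_add]; congr 1; omega
    have h8 : (2 : ℝ) ^ (n - i) * (x - x') * 2 ^ i = 2 ^ j * d + θ + 2 ^ K * (z - z') := by
      rw [← e1, e3]
      ring
    have h9 : (0 : ℝ) < 2 ^ i := by positivity
    have h10 : (2 : ℝ) ^ (n - i) * (x - x') = (2 ^ j * d + θ + 2 ^ K * (z - z')) / 2 ^ i := by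
      rw [eq_div_iff h9.ne', h8]
    have h11 : (2 : ℝ) ^ (n - i) * x - 2 ^ (n - i) * x' =
        ((d + 2 ^ (K - j) * (z - z') : ℤ) : ℝ) / 2 ^ (i - j) + θ / 2 ^ i := by
      rw [← mul_sub, h10, e4, e5]
      push_cast
      have h12 : (0 : ℝ) < 2 ^ (i - j) := by positivity
      have h13 : (0 : ℝ) < 2 ^ j := by positivity
      field_simp
      ring
    linarith

/-- the masses of the words -/
lemma word_mass {μ : Measure ℝ} (h : Inv23 μ) (n K a : ℕ) :
    μ.real {x | word n K x = a} = pr μ (2 ^ K) a := by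
  have h1 := (preserving_two_pow h (n - K)).measure_preimage
    (measurableSet_floor_eq (2 ^ K) a).nullMeasurableSet
  unfold pr
  rw [measureReal_def, measureReal_def, ← h1]
  congr 2
  ext x
  show word n K x = a ↔ ⌊((2 ^ K : ℕ) : ℝ) * Int.fract (2 ^ (n - K) * x)⌋₊ = a
  unfold word
  push_cast
  rfl

end Helper17.EP
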