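import Mathlib
import Pool.Agent.Helper17.EP.Ent
import Pool.Agent.Helper17.EP.Cells
import Pool.Agent.Helper17.EP.Word

/-!
# Entropy is produced at the bad scales

`stageP`: if for each scale `q ≥ q₀` two points of `G q` never differ by an odd multiple of
`2 ^ (-n')`, `n₁ q ≤ n' ≤ W q` (up to a very small error), then the entropy of `μ` on the dyadic
intervals of length `2 ^ (-K)` is at most `C + 12 ∑ 2 ^ q μ (G q)ᶜ`, the sum over the scales `q`
with `2 ^ q ≲ K`.
-/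

set_option autoImplicit false

open MeasureTheory Finset

namespace Helper17.EP

open Pool.Agent.Helper61.FR

private lemma card_filter_eq (I : Finset ℕ) (B : ℕ → Set ℝ) [∀ x i, Decidable (x ∈ B i)] (x : ℝ) :
    ((I.filter (fun i => x ∈ B i)).card : ℝ) = ∑ i ∈ I, (B i).indicator (fun _ => (1 : ℝ)) x := by
  rw [Finset.card_filter]
  push_cast
  refine Finset.sum_congr rfl fun i _ => ?_
  simp [Set.indicator_apply]

private lemma measurableSet_card (I : Finset ℕ) (B : ℕ → Set ℝ) [∀ x i, Decidable (x ∈ B i)]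
    (hB : ∀ i, MeasurableSet (B i)) (t : ℝ) :
    MeasurableSet {x | t ≤ ((I.filter (fun i => x ∈ B i)).card : ℝ)} := by
  have h3 : {x | t ≤ ((I.filter (fun i => x ∈ B i)).card : ℝ)}
      = {x | t ≤ ∑ i ∈ I, (B i).indicator (fun _ => (1 : ℝ)) x} := by
    ext x
    show t ≤ ((I.filter (fun i => x ∈ B i)).card : ℝ) ↔
      t ≤ ∑ i ∈ I, (B i).indicator (fun _ => (1 : ℝ)) x
    rw [card_filter_eq I B x]
  rw [h3]
  exact measurableSet_le measurable_const
    (Finset.measurable_sum _ fun i _ => measurable_const.indicator (hB i))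

/-- Markov's inequality for a number of events -/
private lemma markov_card {μ : Measure ℝ} [IsProbabilityMeasure μ] (I : Finset ℕ)
    (B : ℕ → Set ℝ) [∀ x i, Decidable (x ∈ B i)] (hB : ∀ i, MeasurableSet (B i)) (t : ℝ) :
    t * μ.real {x | t ≤ ((I.filter (fun i => x ∈ B i)).card : ℝ)} ≤ ∑ i ∈ I, μ.real (B i) := by
  have hint : ∀ i, Integrable ((B i).indicator (fun _ => (1 : ℝ))) μ := fun i =>
    (integrable_const (1 : ℝ)).indicator (hB i)
  have h1 := mul_meas_ge_le_integral_of_nonneg (μ := μ)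
    (f := fun x => ∑ i ∈ I, (B i).indicator (fun _ => (1 : ℝ)) x)
    (Filter.Eventually.of_forall fun x => Finset.sum_nonneg fun i _ =>
      Set.indicator_nonneg (fun _ _ => zero_le_one) x)
    (integrable_finsetSum _ fun i _ => hint i) t
  have h2 : ∫ x, ∑ i ∈ I, (B i).indicator (fun _ => (1 : ℝ)) x ∂μ = ∑ i ∈ I, μ.real (B i) := by
    rw [integral_finsetSum _ fun i _ => hint i]
    refine Finset.sum_congr rfl fun i _ => ?_
    rw [integral_indicator (hB i)]
    simp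
  rw [h2] at h1
  have h3 : {x | t ≤ ((I.filter (fun i => x ∈ B i)).card : ℝ)}
      = {x | t ≤ ∑ i ∈ I, (B i).indicator (fun _ => (1 : ℝ)) x} := by
    ext x
    show t ≤ ((I.filter (fun i => x ∈ B i)).card : ℝ) ↔
      t ≤ ∑ i ∈ I, (B i).indicator (fun _ => (1 : ℝ)) x
    rw [card_filter_eq I B x]
  rw [h3]
  exact h1

/-- numbers in the same class are close -/
private lemma close_of_class (C : ℝ) (hC : 0 ≤ C) (u v : ℝ) (hu : 0 ≤ u) (hv : 0 ≤ v)
    (h : ⌊C * u⌋₊ = ⌊C * v⌋₊) : |u - v| * C ≤ 1 := by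
  have f1 := Nat.floor_le (mul_nonneg hC hu)
  have f2 := Nat.floor_le (mul_nonneg hC hv)
  have g1 := Nat.lt_floor_add_one (C * u)
  have g2 := Nat.lt_floor_add_one (C * v)
  rw [h] at f1 g1
  have h4 : |u - v| * C = |C * u - C * v| := by
    rw [← mul_sub, abs_mul, abs_of_nonneg hC, mul_comm]
  rw [h4, abs_le]
  constructor <;> linarith

theorem stageP {μ : Measure ℝ} (h : Inv23 μ) (q₀ : ℕ) (n₁ W : ℕ → ℕ)
    (hn₁ : ∀ q, q₀ ≤ q → 1 ≤ n₁ q)
    (hWm : Monotone W) (hW1 : ∀ q, q₀ ≤ q → 4 * n₁ q ≤ W q) (hW2 : ∀ q, q₀ ≤ q → W q ≤ 2 ^ (q + 1))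
    (hW3 : ∀ q, q₀ ≤ q → 8 * (q + 3) ≤ W q)
    (G : ℕ → Set ℝ) (hGm : ∀ q, MeasurableSet (G q))
    (hGp : ∀ q x, Int.fract x ∈ G q ↔ x ∈ G q)
    (hdet : ∀ q, q₀ ≤ q → ∀ (n' : ℕ) (d : ℤ) (τ x : ℝ), n₁ q ≤ n' → n' ≤ W q → Odd d →
      |τ| * 3 ^ (2 ^ q) * 2 ^ n' ≤ 1 → x ∈ G q → x + d / 2 ^ n' + τ ∈ G q → False) (K : ℕ) :
    ent (pr μ) (2 ^ K) ≤ Real.log (2 * 3 ^ (2 ^ q₀)) +
      12 * ∑ q ∈ Ico q₀ (lev q₀ K + 1), 2 ^ q * μ.real (G q)ᶜ := by
  classical
  have hprob := h.prob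
  obtain ⟨L, hL⟩ : ∃ L : ℕ → ℕ, L = fun q => W q / 4 := ⟨_, rfl⟩
  have hLq : ∀ q, L q = W q / 4 := fun q => by rw [hL]
  have hL1 : ∀ q, q₀ ≤ q → 1 ≤ L q := by
    intro q hq
    have := hW3 q hq
    rw [hLq]
    omega
  obtain ⟨t, htd⟩ : ∃ t, t = cell q₀ L := ⟨_, rfl⟩
  obtain ⟨lv, hlv⟩ : ∃ lv : ℕ → ℕ, lv = clev q₀ L := ⟨_, rfl⟩
  have ht : Monotone t := htd ▸ cell_mono q₀ L
  have hts : ∀ i, t (i + 1) = t i + L (lv i) := fun i => by rw [htd, hlv]; exact cell_succ q₀ L i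
  have ht0 : t 0 = 0 := by rw [htd]; rfl
  have hlvt : ∀ i, lv i = lev q₀ (t i + 1) := fun i => by rw [hlv, htd]; rfl
  have hlv0 : ∀ i, q₀ ≤ lv i := fun i => by rw [hlv]; exact clev_ge q₀ L i
  -- the number of cells
  have hex : ∃ i, K ≤ t i := ⟨K, htd ▸ le_cell q₀ L hL1 K⟩
  obtain ⟨m, hm, hmin⟩ : ∃ m, K ≤ t m ∧ ∀ i < m, t i < K :=
    ⟨Nat.find hex, Nat.find_spec hex, fun i hi => not_le.1 (Nat.find_min hex hi)⟩
  obtain ⟨n, hn⟩ : ∃ n, n = t m + W (lev q₀ K) := ⟨_, rfl⟩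
  have hKn : K ≤ n := by omega
  have hlvK : ∀ i < m, lv i ≤ lev q₀ K := by
    intro i hi
    rw [hlvt]
    exact lev_mono q₀ (hmin i hi)
  -- the bad events
  let B : ℕ → ℕ → Set ℝ := fun q i => {x | (2 : ℝ) ^ (n - i) * x ∉ G q}
  have hBm : ∀ q i, MeasurableSet (B q i) := by
    intro q i
    have : MeasurableSet ((fun x : ℝ => (2 : ℝ) ^ (n - i) * x) ⁻¹' (G q)ᶜ) :=
      (measurable_const.mul measurable_id) (hGm q).compl
    exact this
  have hBmu : ∀ q i, μ.real (B q i) = μ.real (G q)ᶜ := by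
    intro q i
    have h1 := (preserving_two_pow h (n - i)).measure_preimage (hGm q).compl.nullMeasurableSet
    have h2 : (fun x : ℝ => Int.fract (2 ^ (n - i) * x)) ⁻¹' (G q)ᶜ = B q i := by
      ext x
      show Int.fract (2 ^ (n - i) * x) ∉ G q ↔ (2 : ℝ) ^ (n - i) * x ∉ G q
      rw [hGp]
    rw [h2] at h1
    simp only [Measure.real, h1]
  -- the labels
  let I : ℕ → Finset ℕ := fun i => Icc (t i + n₁ (lv i)) (t (i + 1) + W (lv i))
  let lab : ℕ → Set ℝ := fun i =>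
    {x | (3 / 8 * W (lv i) : ℝ) ≤ (((I i).filter (fun k => x ∈ B (lv i) k)).card : ℝ)}
  have hlabm : ∀ i, MeasurableSet (lab i) := fun i =>
    measurableSet_card (I i) (B (lv i)) (hBm (lv i)) _
  have hlabμ : ∀ i, μ.real (lab i) ≤ 10 / 3 * μ.real (G (lv i))ᶜ := by
    intro i
    have h1 := markov_card (μ := μ) (I i) (B (lv i)) (hBm (lv i)) (3 / 8 * W (lv i) : ℝ)
    have h2 : ∑ k ∈ I i, μ.real (B (lv i) k) = ((I i).card : ℝ) * μ.real (G (lv i))ᶜ := by
      rw [Finset.sum_congr rfl fun k _ => hBmu (lv i) k, Finset.sum_const, nsmul_eq_mul]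
    rw [h2] at h1
    have h3 : 4 * (I i).card ≤ 5 * W (lv i) := by
      show 4 * (Icc (t i + n₁ (lv i)) (t (i + 1) + W (lv i))).card ≤ 5 * W (lv i)
      rw [Nat.card_Icc, hts, hLq]
      have := hn₁ (lv i) (hlv0 i)
      omega
    have h4 : (4 : ℝ) * (I i).card ≤ 5 * W (lv i) := by exact_mod_cast h3
    have h5 : 3 / 8 * (W (lv i) : ℝ) * μ.real (lab i) ≤
        ((I i).card : ℝ) * μ.real (G (lv i))ᶜ := h1
    have h6 : (0 : ℝ) < W (lv i) := by
      have : 0 < W (lv i) := by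
        have := hW3 (lv i) (hlv0 i)
        omega
      exact_mod_cast this
    have h7 : (0 : ℝ) ≤ μ.real (G (lv i))ᶜ := measureReal_nonneg
    have h8 : 3 / 8 * (W (lv i) : ℝ) * μ.real (lab i) ≤
        3 / 8 * (W (lv i) : ℝ) * (10 / 3 * μ.real (G (lv i))ᶜ) := by
      refine h5.trans ?_
      nlinarith
    exact le_of_mul_le_mul_left h8 (by positivity)
  -- the costs
  have hlog2 : 0 < Real.log 2 := Real.log_pos (by norm_num)
  let ℓ : ℕ → ℝ := fun i => L (lv i) * Real.log 2 + 2 * Real.log ((i : ℝ) + 2)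
  have hℓ0 : ∀ i, 0 ≤ ℓ i := by
    intro i
    have h1 : (0 : ℝ) ≤ i := Nat.cast_nonneg i
    have h2 : 0 ≤ Real.log ((i : ℝ) + 2) := Real.log_nonneg (by linarith)
    show 0 ≤ L (lv i) * Real.log 2 + 2 * Real.log ((i : ℝ) + 2)
    positivity
  have hℓexp : ∀ i, 2 ^ (t (i + 1) - t i) * Real.exp (-ℓ i) = 1 / ((i : ℝ) + 2) ^ 2 := by
    intro i
    have h1 : (0 : ℝ) ≤ i := Nat.cast_nonneg i
    have h2 : (0 : ℝ) < (i : ℝ) + 2 := by linarith
    have h3 : Real.exp (ℓ i) = 2 ^ L (lv i) * ((i : ℝ) + 2) ^ 2 := by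
      show Real.exp (L (lv i) * Real.log 2 + 2 * Real.log ((i : ℝ) + 2)) = _
      rw [Real.exp_add, Real.exp_nat_mul, Real.exp_log (by norm_num)]
      congr 1
      have := Real.exp_nat_mul (Real.log ((i : ℝ) + 2)) 2
      rw [Real.exp_log h2] at this
      exact_mod_cast this
    rw [Real.exp_neg, h3, hts, Nat.add_sub_cancel_left]
    have h4 : (0 : ℝ) < 2 ^ L (lv i) := by positivity
    field_simp
  have hℓL : ∀ i, ℓ i ≤ 2 * Real.log 2 * L (lv i) := by
    intro i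
    have h1 : (i : ℝ) + 2 ≤ 2 ^ (lv i + 3) := by
      have h2 := lev_lt q₀ (t i + 1)
      rw [← hlvt, Nat.add_sub_cancel] at h2
      have h3 : i ≤ t i := htd ▸ le_cell q₀ L hL1 i
      have h4 : 2 ^ (lv i + 3) = 4 * 2 ^ (lv i + 1) := by ring
      have h6 : 0 < 2 ^ q₀ := by positivity
      have h5 : i + 2 ≤ 2 ^ (lv i + 3) := by omega
      exact_mod_cast h5
    have h2 : Real.log ((i : ℝ) + 2) ≤ (lv i + 3) * Real.log 2 := by
      have h3 : (0 : ℝ) < (i : ℝ) + 2 := by positivity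
      have h4 := Real.log_le_log h3 h1
      rw [Real.log_pow] at h4
      exact_mod_cast h4
    have h3 : 2 * ((lv i : ℝ) + 3) ≤ L (lv i) := by
      have h4 := hW3 (lv i) (hlv0 i)
      have h5 : 2 * (lv i + 3) ≤ L (lv i) := by
        rw [hLq]
        omega
      exact_mod_cast h5
    have h4 := mul_le_mul_of_nonneg_right h3 hlog2.le
    show L (lv i) * Real.log 2 + 2 * Real.log ((i : ℝ) + 2) ≤ _
    nlinarith
  let cost : ℝ → ℝ := fun x => ∑ i ∈ range m, (lab i).indicator (fun _ => ℓ i) x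
  have hcint : ∀ i, Integrable ((lab i).indicator (fun _ => ℓ i)) μ := fun i =>
    (integrable_const (ℓ i)).indicator (hlabm i)
  have hcost : Integrable cost μ := integrable_finsetSum _ fun i _ => hcint i
  have hcosteq : ∫ x, cost x ∂μ = ∑ i ∈ range m, ℓ i * μ.real (lab i) := by
    show ∫ x, ∑ i ∈ range m, (lab i).indicator (fun _ => ℓ i) x ∂μ = _
    rw [integral_finsetSum _ fun i _ => hcint i]
    refine Finset.sum_congr rfl fun i _ => ?_
    rw [integral_indicator_const _ (hlabm i), smul_eq_mul, mul_comm]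
  -- Kraft's inequality
  have hkraft : ∀ (c₀ : ℕ) (T : Finset ℕ) (r : ℕ → ℝ), (∀ a ∈ T, word n K (r a) = a ∧
      ⌊(3 : ℝ) ^ (2 ^ q₀) * Int.fract ((2 : ℝ) ^ n * (r a))⌋₊ = c₀) →
      ∑ a ∈ T, Real.exp (-cost (r a)) ≤ 2 := by
    intro c₀ T r hr
    have hTlt : ∀ a ∈ T, a < 2 ^ t m := by
      intro a ha
      have h1 := word_lt n K (r a)
      rw [(hr a ha).1] at h1
      exact lt_of_lt_of_le h1 (Nat.pow_le_pow_right (by norm_num) hm)
    have hA : ∀ a ∈ T, ∀ b ∈ T, ∀ i, i < m → a % 2 ^ t i = b % 2 ^ t i →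
        a % 2 ^ t (i + 1) ≠ b % 2 ^ t (i + 1) → r a ∈ lab i ∨ r b ∈ lab i := by
      intro a ha b hb i him h1 h2
      obtain ⟨j, hj1, hj2, hj3, hj4⟩ := exists_first h1 h2 (ht (Nat.le_succ i))
      obtain ⟨q, hq⟩ : ∃ q, q = lv i := ⟨_, rfl⟩
      have hqq : q₀ ≤ q := hq ▸ hlv0 i
      have hn1 := hn₁ q hqq
      have hw1 := hW1 q hqq
      by_contra hcon
      push Not at hcon
      have hca : (((I i).filter (fun k => r a ∈ B (lv i) k)).card : ℝ) < 3 / 8 * W (lv i) :=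
        not_le.1 hcon.1
      have hcb : (((I i).filter (fun k => r b ∈ B (lv i) k)).card : ℝ) < 3 / 8 * W (lv i) :=
        not_le.1 hcon.2
      rw [← hq] at hca hcb
      have hWK : W q ≤ W (lev q₀ K) := hWm (hq ▸ hlvK i him)
      have hti : t (i + 1) ≤ t m := ht him
      -- the difference of the last digits
      obtain ⟨θ, hθ⟩ : ∃ θ, θ = Int.fract ((2 : ℝ) ^ n * r a) - Int.fract ((2 : ℝ) ^ n * r b) :=
        ⟨_, rfl⟩
      have hθ1 : |θ| * 3 ^ (2 ^ q₀) ≤ 1 := by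
        rw [hθ]
        exact close_of_class _ (by positivity) _ _ (Int.fract_nonneg _) (Int.fract_nonneg _)
          ((hr a ha).2.trans (hr b hb).2.symm)
      have hcov : Icc (j + n₁ q) (j + W q) ⊆
          ((I i).filter (fun k => r a ∈ B q k)) ∪ ((I i).filter (fun k => r b ∈ B q k)) := by
        intro k hk
        rw [mem_Icc] at hk
        have hkI : k ∈ I i := by
          show k ∈ Icc (t i + n₁ (lv i)) (t (i + 1) + W (lv i))
          rw [← hq, mem_Icc]
          constructor <;> omega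
        rw [Finset.mem_union, Finset.mem_filter, Finset.mem_filter]
        by_contra hno
        push Not at hno
        have g1 : (2 : ℝ) ^ (n - k) * r a ∈ G q := by
          by_contra hg
          exact hno.1 hkI hg
        have g2 : (2 : ℝ) ^ (n - k) * r b ∈ G q := by
          by_contra hg
          exact hno.2 hkI hg
        have hkn : k ≤ n := by omega
        obtain ⟨d, hd, hdx⟩ := pair (n := n) (K := K) (j := j) (i := k) hKn (r a) (r b)
          (by rw [(hr a ha).1, (hr b hb).1]; exact hj3)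
          (by rw [(hr a ha).1, (hr b hb).1]; exact hj4) (by omega) hkn
        rw [← hθ] at hdx
        refine hdet q hqq (k - j) d (θ / 2 ^ k) ((2 : ℝ) ^ (n - k) * r b) (by omega) (by omega)
          hd ?_ g2 ?_
        · rw [abs_div, abs_of_pos (by positivity : (0 : ℝ) < 2 ^ k)]
          have e2 : (2 : ℝ) ^ k = 2 ^ (k - j) * 2 ^ j := by
            rw [← pow_add]; congr 1; omega
          have e3 : |θ| / 2 ^ k * 3 ^ (2 ^ q) * 2 ^ (k - j) = |θ| * 3 ^ (2 ^ q) / 2 ^ j := by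
            rw [e2]
            field_simp
          rw [e3, div_le_one (by positivity)]
          have e4 : 2 ^ q ≤ 2 ^ q₀ + j / 2 := by
            have h5 := lev_pow q₀ (t i + 1)
            rw [← hlvt, ← hq, Nat.add_sub_cancel] at h5
            have h6 : t i / 2 ≤ j / 2 := Nat.div_le_div_right hj1
            omega
          calc |θ| * 3 ^ (2 ^ q) ≤ |θ| * 3 ^ (2 ^ q₀ + j / 2) := by
                apply mul_le_mul_of_nonneg_left _ (abs_nonneg _)
                exact pow_le_pow_right₀ (by norm_num) e4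
            _ = (|θ| * 3 ^ (2 ^ q₀)) * 3 ^ (j / 2) := by rw [pow_add]; ring
            _ ≤ 1 * 3 ^ (j / 2) := by
                apply mul_le_mul_of_nonneg_right hθ1 (by positivity)
            _ ≤ 4 ^ (j / 2) := by
                rw [one_mul]
                exact pow_le_pow_left₀ (by norm_num) (by norm_num) _
            _ = 2 ^ (2 * (j / 2)) := by rw [pow_mul]; norm_num
            _ ≤ 2 ^ j := pow_le_pow_right₀ (by norm_num) (by omega)
        · rw [← hdx]
          exact g1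
      have h5 := (Finset.card_le_card hcov).trans (Finset.card_union_le _ _)
      rw [Nat.card_Icc] at h5
      have h6 : ((j + W q + 1 - (j + n₁ q) : ℕ) : ℝ)
          ≤ (((I i).filter (fun k => r a ∈ B q k)).card : ℝ)
            + (((I i).filter (fun k => r b ∈ B q k)).card : ℝ) := by
        exact_mod_cast h5
      have h7 : 3 * W q ≤ 4 * (j + W q + 1 - (j + n₁ q)) := by omega
      have h8 : 3 * (W q : ℝ) ≤ 4 * ((j + W q + 1 - (j + n₁ q) : ℕ) : ℝ) := by
        exact_mod_cast h7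
      linarith
    have hK := kraft t ht m T hTlt (fun a i => r a ∈ lab i) (fun i => Real.exp (-ℓ i))
      (fun i => (Real.exp_pos _).le) hA m le_rfl 0
    rw [Nat.sub_self, ht0, pow_zero, Finset.filter_true_of_mem fun a _ => Nat.mod_one a,
      ← Finset.range_eq_Ico] at hK
    have h1 : ∑ a ∈ T, Real.exp (-cost (r a)) =
        ∑ a ∈ T, ∏ i ∈ range m, (if r a ∈ lab i then Real.exp (-ℓ i) else 1) := by
      refine Finset.sum_congr rfl fun a _ => ?_
      show Real.exp (-∑ i ∈ range m, (lab i).indicator (fun _ => ℓ i) (r a)) = _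
      rw [← Finset.sum_neg_distrib, Real.exp_sum]
      refine Finset.prod_congr rfl fun i _ => ?_
      rw [Set.indicator_apply]
      split_ifs
      · rfl
      · simp
    rw [h1]
    refine hK.trans ?_
    rw [Finset.prod_congr rfl fun i _ => by rw [hℓexp i]]
    exact prod_le_two m
  -- the entropy
  have hmc : Measurable fun x : ℝ => ⌊(3 : ℝ) ^ (2 ^ q₀) * Int.fract ((2 : ℝ) ^ n * x)⌋₊ :=
    Nat.measurable_floor.comp (measurable_const.mul
      (measurable_fract.comp (measurable_const.mul measurable_id)))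
  have hcC : ∀ x : ℝ, ⌊(3 : ℝ) ^ (2 ^ q₀) * Int.fract ((2 : ℝ) ^ n * x)⌋₊ < 3 ^ (2 ^ q₀) := by
    intro x
    rw [Nat.floor_lt (mul_nonneg (by positivity) (Int.fract_nonneg _))]
    push_cast
    have := Int.fract_lt_one ((2 : ℝ) ^ n * x)
    have h3 : (0 : ℝ) < 3 ^ (2 ^ q₀) := by positivity
    nlinarith
  have hent := entropy_le (μ := μ) (2 ^ K) (3 ^ (2 ^ q₀)) (word n K) _ (measurable_word n K) hmc
    (word_lt n K) hcC cost hcost hkraft
  have e1 : ent (pr μ) (2 ^ K) =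
      ∑ a ∈ range (2 ^ K), Real.negMulLog (μ.real {x | word n K x = a}) := by
    unfold ent
    exact Finset.sum_congr rfl fun a _ => by rw [word_mass h]
  rw [e1]
  refine hent.trans ?_
  rw [add_comm]
  push_cast
  refine add_le_add le_rfl ?_
  -- the mean cost
  rw [hcosteq]
  obtain ⟨g, hg⟩ : ∃ g : ℕ → ℝ, g = fun q => μ.real (G q)ᶜ := ⟨_, rfl⟩
  have hgq : ∀ q, μ.real (G q)ᶜ = g q := fun q => by rw [hg]
  have hg0 : ∀ q, 0 ≤ g q := fun q => by rw [← hgq]; exact measureReal_nonneg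
  simp only [hgq]
  have h1 : ∑ i ∈ range m, ℓ i * μ.real (lab i) ≤
      20 / 3 * Real.log 2 * ∑ i ∈ range m, (L (lv i) : ℝ) * g (lv i) := by
    rw [Finset.mul_sum]
    refine Finset.sum_le_sum fun i _ => ?_
    have h2 := hlabμ i
    rw [hgq] at h2
    have h3 : ℓ i * μ.real (lab i) ≤ ℓ i * (10 / 3 * g (lv i)) :=
      mul_le_mul_of_nonneg_left h2 (hℓ0 i)
    have h4 : ℓ i * (10 / 3 * g (lv i)) ≤ (2 * Real.log 2 * L (lv i)) * (10 / 3 * g (lv i)) :=
      mul_le_mul_of_nonneg_right (hℓL i) (by have := hg0 (lv i); positivity)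
    refine h3.trans (h4.trans (le_of_eq ?_))
    ring
  refine h1.trans ?_
  have h2 : ∑ i ∈ range m, (L (lv i) : ℝ) * g (lv i) ≤
      5 / 2 * ∑ q ∈ Ico q₀ (lev q₀ K + 1), 2 ^ q * g q := by
    have h2a : ∀ q, q₀ ≤ q → (2 ^ (q + 1) + L q : ℝ) * g q ≤ 5 / 2 * (2 ^ q * g q) := by
      intro q hq
      have h3 : 2 * L q ≤ 2 ^ q := by
        have h4 := hW2 q hq
        have h5 : 2 ^ (q + 1) = 2 * 2 ^ q := by ring
        rw [hLq]
        omega
      have h4 : 2 * (L q : ℝ) ≤ 2 ^ q := by exact_mod_cast h3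
      have h5 : (2 ^ (q + 1) + L q : ℝ) ≤ 5 / 2 * 2 ^ q := by
        rw [pow_succ]
        linarith
      have h6 := mul_le_mul_of_nonneg_right h5 (hg0 q)
      linarith
    rcases Nat.eq_zero_or_pos m with hm0 | hm0
    · rw [hm0, range_zero, sum_empty]
      have : 0 ≤ ∑ q ∈ Ico q₀ (lev q₀ K + 1), 2 ^ q * g q :=
        Finset.sum_nonneg fun q _ => by have := hg0 q; positivity
      linarith
    · obtain ⟨m', rfl⟩ : ∃ m', m = m' + 1 := ⟨m - 1, by omega⟩
      have h3 := sum_cells q₀ L g hg0 m'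
      rw [← hlv] at h3
      refine h3.trans ?_
      rw [Finset.mul_sum]
      refine (Finset.sum_le_sum fun q hq => h2a q (mem_Ico.1 hq).1).trans ?_
      refine Finset.sum_le_sum_of_subset_of_nonneg ?_ fun q _ _ => by
        have := hg0 q
        positivity
      exact Finset.Ico_subset_Ico le_rfl (Nat.add_le_add_right (hlvK m' (Nat.lt_succ_self m')) 1)
  have h3 : 0 ≤ ∑ q ∈ Ico q₀ (lev q₀ K + 1), 2 ^ q * g q :=
    Finset.sum_nonneg fun q _ => by have := hg0 q; positivity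
  have h4 := Real.log_two_lt_d9
  calc 20 / 3 * Real.log 2 * ∑ i ∈ range m, (L (lv i) : ℝ) * g (lv i)
      ≤ 20 / 3 * Real.log 2 * (5 / 2 * ∑ q ∈ Ico q₀ (lev q₀ K + 1), 2 ^ q * g q) :=
        mul_le_mul_of_nonneg_left h2 (by positivity)
    _ = (50 / 3 * Real.log 2) * ∑ q ∈ Ico q₀ (lev q₀ K + 1), 2 ^ q * g q := by ring
    _ ≤ 12 * ∑ q ∈ Ico q₀ (lev q₀ K + 1), 2 ^ q * g q :=
        mul_le_mul_of_nonneg_right (by linarith) h3

end Helper17.EP
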