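import Mathlib
import Pool.Agent.Helper75.RE.Arcs
import Pool.Agent.Helper17.EP.Stage

/-!
# Entropy is produced in Lebesgue phases: the circle

`entropy_phases`: for `×2, ×3`-invariant probability measures on the circle the entropy on the
dyadic arcs of length `2 ^ (-K)` is at most `C + 12 ∑ 2 ^ q ν (Ph M n q)`, `q ≤ log₂ K`.
-/

set_option autoImplicit false

open MeasureTheory Finset Filter Topology

namespace Helper17.EP

open Pool.Agent.Helper61.FR Helper75.LP Helper75.DF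
open Pool.Agent.Helper17.KW (wing wing_mono wing_le wing_le_two_pow window_wing)
open Pool.Agent.Helper40.LPA (Gd fract_mem_Gd measurableSet_Gd isOpen_Ph exists_wing)

/-- the masses of the dyadic arcs -/
theorem arc_mass {μ : Measure ℝ} (h : Inv23 μ) {ν : Measure Tor}
    (hν : μ.map (fun x : ℝ => (x : Tor)) = ν) (K i : ℕ) (hi : i < 2 ^ K) :
    ν.real (Helper75.RE.arc K i) = pr μ (2 ^ K) i := by
  rw [← word_mass h K K i, measureReal_def, measureReal_def, ← hν,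
    Measure.map_apply measurable_coe_circle (Helper75.RE.measurableSet_arc K i)]
  congr 2
  ext x
  show ((x : ℝ) : Tor) ∈ Helper75.RE.arc K i ↔ word K K x = i
  rw [Helper75.RE.mem_arc_iff, Helper75.RE.idx_coe, Nat.mod_eq_of_lt hi]
  unfold word Helper75.RE.cell
  rw [Nat.sub_self, pow_zero, one_mul]

/-- room for the logarithm in the window -/
theorem exists_wing_log {γ : ℝ} (hγ : γ < 3 / 2) : ∃ γ' : ℝ, 1 ≤ γ' ∧ γ' < 3 / 2 ∧
    ∀ r : ℕ, ∃ q₁ : ℕ, ∀ q : ℕ, q₁ ≤ q → 8 * (q + 3) ≤ wing γ' q ∧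
      ∀ M : ℕ, (M : ℝ) ≤ (q : ℝ) ^ γ → 4 * (M + r) ≤ wing γ' q := by
  obtain ⟨γ₁, hγ₁⟩ : ∃ γ₁, γ₁ = (max γ 1 + 3 / 2) / 2 := ⟨_, rfl⟩
  have hm : max γ 1 < 3 / 2 := max_lt hγ (by norm_num)
  have hm1 : 1 ≤ max γ 1 := le_max_right _ _
  have hmγ : γ ≤ max γ 1 := le_max_left _ _
  have hg0 : 1 < γ₁ := by rw [hγ₁]; linarith
  have hg1 : γ < γ₁ := by rw [hγ₁]; linarith
  have hg2 : γ₁ < 3 / 2 := by rw [hγ₁]; linarith
  obtain ⟨γ', h1, h1', hw⟩ := exists_wing hg2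
  refine ⟨γ', h1, h1', fun r => ?_⟩
  obtain ⟨q₁, hq₁⟩ := hw r
  have hgap : Tendsto (fun q : ℕ => (q : ℝ) ^ (γ₁ - 1)) atTop atTop :=
    (tendsto_rpow_atTop (by linarith)).comp tendsto_natCast_atTop_atTop
  obtain ⟨q₂, hq₂⟩ := eventually_atTop.mp (hgap.eventually_ge_atTop 32)
  refine ⟨q₁ + q₂ + 1, fun q hq => ⟨?_, fun M hM => ?_⟩⟩
  · have hq1 : (1 : ℝ) ≤ q := by exact_mod_cast (by omega : 1 ≤ q)
    have h2 := hq₂ q (by omega)
    have h3 := (hq₁ q (by omega)).1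
    have h4 : (q : ℝ) ^ γ₁ = (q : ℝ) ^ (γ₁ - 1) * (q : ℝ) := by
      rw [← Real.rpow_add_one (by linarith : (q : ℝ) ≠ 0)]
      congr 1
      ring
    have h5 : 8 * ((q : ℝ) + 3) ≤ wing γ' q := by
      refine le_trans ?_ h3
      rw [h4]
      nlinarith
    exact_mod_cast h5
  · have hq1 : (1 : ℝ) ≤ q := by exact_mod_cast (by omega : 1 ≤ q)
    exact (hq₁ q (by omega)).2 M (hM.trans (Real.rpow_le_rpow_of_exponent_le hq1 hg1.le))

/-- **Entropy is produced in Lebesgue phases.**  There is a constant `C` such that for all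
`×2, ×3`-invariant probability measures on the circle and all `K` the entropy on the dyadic arcs of
length `2 ^ (-K)` is at most `C + 12 ∑_{q ≤ log₂ K} 2 ^ q ν (Ph M n q)`. -/
theorem entropy_phases {γ : ℝ} (hγ : γ < 3 / 2) (M : ℕ → ℕ)
    (hM : Tendsto M atTop atTop) (hMγ : ∀ᶠ q : ℕ in atTop, (M q : ℝ) ≤ (q : ℝ) ^ γ) (n : ℕ) :
    ∃ C : ℝ, ∀ ν : Measure Tor, IsProbabilityMeasure ν →
      MeasurePreserving (fun x : Tor => (2 : ℕ) • x) ν ν →
      MeasurePreserving (fun x : Tor => (3 : ℕ) • x) ν ν → ∀ K : ℕ,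
      ∑ i ∈ range (2 ^ K), Real.negMulLog (ν.real (Helper75.RE.arc K i)) ≤
        C + 12 * ∑ q ∈ range (Nat.log 2 K + 1), 2 ^ q * ν.real (Ph M n q) := by
  obtain ⟨γ', h1, h1', hw⟩ := exists_wing_log hγ
  have hW := window_wing h1'
  obtain ⟨r, hr⟩ := two_point M (wing γ') hM hW n
  obtain ⟨q₁, hq₁⟩ := hw (r + 1)
  obtain ⟨q₂, hq₂⟩ := eventually_atTop.mp hMγ
  obtain ⟨q₀, hq₀⟩ : ∃ q₀, q₀ = q₁ + q₂ + r + 1 := ⟨_, rfl⟩
  refine ⟨Real.log (2 * 3 ^ (2 ^ q₀)) + 12 * (3 * 2 ^ q₀), fun ν hνp h2 h3 K => ?_⟩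
  obtain ⟨μ, hμ, hν, -⟩ := exists_inv23 ν h2 h3
  have hprob := hμ.prob
  have hGd : ∀ q, μ.real (Gd M n q)ᶜ = ν.real (Ph M n q) := by
    intro q
    have h4 : (Gd M n q)ᶜ = (fun x : ℝ => (x : Tor)) ⁻¹' Ph M n q := by
      ext x
      exact not_not
    rw [h4, measureReal_def, measureReal_def,
      ← Measure.map_apply measurable_coe_circle (isOpen_Ph M n q).measurableSet, hν]
  have hst := stageP hμ q₀ (fun q => M q + (r + 1)) (wing γ') (fun q _ => by
      show 1 ≤ M q + (r + 1)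
      omega) (wing_mono (by linarith)) (fun q hq =>
        (hq₁ q (by omega)).2 (M q) (hq₂ q (by omega)))
      (fun q _ => wing_le_two_pow h1 (by linarith) q) (fun q hq => (hq₁ q (by omega)).1) (Gd M n)
      (measurableSet_Gd M n) (fract_mem_Gd M n) (by
        intro q hq k d τ x h5 h6 hd hτ hx hx'
        rcases hr q (by omega) k (by omega) h6 d hd τ x hτ with h7 | h7
        · exact hx h7
        · exact hx' h7) K
  have e1 : ∑ i ∈ range (2 ^ K), Real.negMulLog (ν.real (Helper75.RE.arc K i)) =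
      ent (pr μ) (2 ^ K) := by
    unfold ent
    exact Finset.sum_congr rfl fun i hi => by rw [arc_mass hμ hν K i (mem_range.1 hi)]
  rw [e1]
  refine hst.trans ?_
  simp only [hGd]
  have h5 : ∑ q ∈ Ico q₀ (lev q₀ K + 1), 2 ^ q * ν.real (Ph M n q) ≤
      3 * 2 ^ q₀ + ∑ q ∈ range (Nat.log 2 K + 1), 2 ^ q * ν.real (Ph M n q) := by
    have h0 : ∀ q, 0 ≤ 2 ^ q * ν.real (Ph M n q) := fun q => by positivity
    rcases le_or_gt (2 ^ (q₀ + 1)) K with hK | hK
    · have h6 : lev q₀ K ≤ Nat.log 2 K := by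
        unfold lev
        apply Nat.log_mono_right
        have : 2 ^ (q₀ + 1) = 2 * 2 ^ q₀ := by ring
        omega
      have h7 : ∑ q ∈ Ico q₀ (lev q₀ K + 1), 2 ^ q * ν.real (Ph M n q) ≤
          ∑ q ∈ range (Nat.log 2 K + 1), 2 ^ q * ν.real (Ph M n q) := by
        refine Finset.sum_le_sum_of_subset_of_nonneg ?_ fun q _ _ => h0 q
        intro q hq
        rw [mem_Ico] at hq
        rw [mem_range]
        omega
      have h8 : (0 : ℝ) < 3 * 2 ^ q₀ := by positivity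
      linarith
    · have h6 : lev q₀ K ≤ q₀ + 1 := by
        unfold lev
        have h7 : 2 ^ q₀ + (K - 1) / 2 ≤ 2 ^ (q₀ + 1) := by
          have : 2 ^ (q₀ + 1) = 2 * 2 ^ q₀ := by ring
          omega
        refine (Nat.log_mono_right h7).trans ?_
        rw [Nat.log_pow (by norm_num)]
      have h7 : ∑ q ∈ Ico q₀ (lev q₀ K + 1), 2 ^ q * ν.real (Ph M n q) ≤
          ∑ q ∈ Ico q₀ (q₀ + 2), (2 : ℝ) ^ q := by
        have hsub : Ico q₀ (lev q₀ K + 1) ⊆ Ico q₀ (q₀ + 2) :=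
          Finset.Ico_subset_Ico le_rfl (by omega)
        refine (Finset.sum_le_sum_of_subset_of_nonneg hsub fun q _ _ => h0 q).trans ?_
        refine Finset.sum_le_sum fun q _ => ?_
        have h8 : ν.real (Ph M n q) ≤ 1 := measureReal_le_one
        have h9 : (0 : ℝ) < 2 ^ q := by positivity
        nlinarith
      have h8 : ∑ q ∈ Ico q₀ (q₀ + 2), (2 : ℝ) ^ q = 3 * 2 ^ q₀ := by
        rw [Finset.sum_Ico_succ_top (by omega), Finset.sum_Ico_succ_top (by omega), Finset.Ico_self,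
          Finset.sum_empty]
        ring
      have h9 : 0 ≤ ∑ q ∈ range (Nat.log 2 K + 1), 2 ^ q * ν.real (Ph M n q) :=
        Finset.sum_nonneg fun q _ => h0 q
      linarith
  linarith

end Helper17.EP
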